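import Mathlib

set_option autoImplicit false

/-! A family of finite algebras (implication, composition) and their weakening models. -/

namespace Pool.Agent.H.MP_5885b3_lc

open Function

def Weak {X : Type} [Preorder X] (R : Set (X × X)) : Prop :=
  ∀ x x' y y', x' ≤ x → y ≤ y' → (x, y) ∈ R → (x', y') ∈ R

def wimp {X : Type} [Preorder X] (R S : Set (X × X)) : Set (X × X) :=
  {p | ∀ x' y', x' ≤ p.1 → p.2 ≤ y' → (x', y') ∈ R → (x', y') ∈ S}

def rcomp {X : Type} (R S : Set (X × X)) : Set (X × X) :=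
  {p | ∃ y, (p.1, y) ∈ R ∧ (y, p.2) ∈ S}

inductive F (k : ℕ) | z | o | a | b (i : Fin k)
  deriving DecidableEq, Fintype

abbrev At (k : ℕ) := {σ : Fin k → Bool // ¬ ∀ i, σ i = true}

def A (k : ℕ) (S : Set (Fin k)) :=
  {f : At k → F k // ∃ g, (∀ i, g = .b i → i ∈ S) ∧ ∀ σ, f σ = g ∨ f σ = .o}

variable {k : ℕ} {S : Set (Fin k)}

instance : Finite (A k S) := Subtype.finite

def cst (g : F k) (h : ∀ i, g = .b i → i ∈ S) : A k S := ⟨fun _ => g, g, h, fun _ => .inl rfl⟩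

def F.imp (u v : F k) : F k := if u = .z ∨ u = v then .o else v

def A.imp (f f' : A k S) : A k S := ⟨fun σ => (f.1 σ).imp (f'.1 σ), by
  obtain ⟨g, h1, h2⟩ := f'.2
  refine ⟨g, h1, fun σ => ?_⟩
  unfold F.imp
  dsimp only
  split_ifs
  exacts [.inr rfl, h2 σ]⟩

open Classical in
noncomputable def A.cmp (f f' : A k S) : A k S := ⟨fun σ =>
  if (∀ τ, f.1 τ = .z) ∨ (∀ τ, f'.1 τ = .z) ∨
    ∃ i, (∀ τ, f.1 τ = .b i) ∧ (∀ τ, f'.1 τ = .a) ∧ σ.1 i = false then .z else .o,
  .z, nofun, fun σ => by dsimp only; split_ifs <;> simp⟩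

structure Pt (k : ℕ) where
  p : Fin k → ℕ
  q : Fin k → ℕ
  U : Fin k → Set ℕ
  V : Fin k → Set ℕ
  dj : ∀ i n, n ∈ U i → n ∉ V i
  iU : ∀ i, (U i).Infinite
  iV : ∀ i, (V i).Infinite

instance : Preorder (Pt k) where
  le x y := x.p = y.p ∧ x.q = y.q ∧ (∀ i, x.U i ⊆ y.U i) ∧ ∀ i, y.V i ⊆ x.V i
  le_refl _ := ⟨rfl, rfl, fun _ => .rfl, fun _ => .rfl⟩
  le_trans _ _ _ h h' := ⟨h.1.trans h'.1, h.2.1.trans h'.2.1, fun i => (h.2.2.1 i).trans (h'.2.2.1 i),
    fun i => (h'.2.2.2 i).trans (h.2.2.2 i)⟩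

def mk (p q c d : Fin k → ℕ) (h : ∀ i, c i ≠ d i) : Pt k where
  p := p
  q := q
  U i := insert (c i) ({n | n % 2 = 0} \ {d i})
  V i := insert (d i) ({n | n % 2 = 1} \ {c i})
  dj i n := by
    have := h i
    simp only [Set.mem_insert_iff, Set.mem_diff, Set.mem_setOf_eq, Set.mem_singleton_iff]
    omega
  iU i := ((Set.infinite_of_injective_forall_mem (f := fun n => 2 * n) (fun _ _ => by simp)
    fun n => by simp).diff (Set.finite_singleton _)).mono (Set.subset_insert _ _)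
  iV i := ((Set.infinite_of_injective_forall_mem (f := fun n => 2 * n + 1) (fun _ _ => by simp)
    fun n => by simp).diff (Set.finite_singleton _)).mono (Set.subset_insert _ _)

instance : Nonempty (Pt k) := ⟨mk 0 0 0 1 (by simp)⟩

def G (x y : Pt k) : F k → Prop
  | .z => False
  | .o => True
  | .a => ∀ i, y.q i ∈ x.V i
  | .b i => x.p i ∈ y.U i

def ty (j : Fin k) (p q : Fin k → ℕ) : At k :=
  ⟨fun i => decide (p i ≠ q i ∧ ¬ (i = j ∧ ∀ l, p l ≠ q l)), fun h => by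
    simp only [decide_eq_true_eq] at h
    exact (h j).2 ⟨rfl, fun l => (h l).1⟩⟩

def Hm (j : Fin k) (f : A k S) : Set (Pt k × Pt k) := {w | G w.1 w.2 (f.1 (ty j w.1.p w.2.q))}

theorem G.mono {x x' y y' : Pt k} (h : x' ≤ x) (h' : y ≤ y') : ∀ {u}, G x y u → G x' y' u
  | .z, e => e
  | .o, e => e
  | .a, e => fun i => h.2.2.2 i (h'.2.1 ▸ e i)
  | .b i, e => h'.2.2.1 i (h.1 ▸ e)

theorem H_weak (j : Fin k) (f : A k S) : Weak (Hm j f) := fun x x' y y' h h' e => by
  have := G.mono h h' e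
  rwa [← h.1, h'.2.1] at this

theorem G.ext {x y : Pt k} {u v : F k} (h1 : u ≠ .z) (h2 : u ≠ v) (h3 : ¬ G x y v) :
    ∃ x' y', x' ≤ x ∧ y ≤ y' ∧ G x' y' u ∧ ¬ G x' y' v := by
  rcases u with _ | _ | _ | i
  · exact (h1 rfl).elim
  · exact ⟨x, y, le_rfl, le_rfl, trivial, h3⟩
  · refine ⟨⟨x.p, x.q, fun i => x.U i \ {y.q i}, fun i => insert (y.q i) (x.V i), ?_,
      fun i => (x.iU i).diff (Set.finite_singleton _),
      fun i => (x.iV i).mono (Set.subset_insert _ _)⟩, y,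
      ⟨rfl, rfl, fun _ => Set.diff_subset, fun _ => Set.subset_insert _ _⟩, le_rfl,
      fun i => .inl rfl, ?_⟩
    · exact fun i n h h' => h'.elim h.2 (x.dj i n h.1)
    · cases v
      exacts [id, h3, (h2 rfl).elim, h3]
  · refine ⟨x, ⟨y.p, y.q, fun l => y.U l ∪ {n | l = i ∧ n = x.p i}, fun l => y.V l \ {x.p i}, ?_,
      fun l => (y.iU l).mono Set.subset_union_left,
      fun l => (y.iV l).diff (Set.finite_singleton _)⟩, le_rfl,
      ⟨rfl, rfl, fun _ => Set.subset_union_left, fun _ => Set.diff_subset⟩, .inr ⟨rfl, rfl⟩, ?_⟩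
    · exact fun l n h h' => h.elim (fun h => y.dj l n h h'.1) fun h => h'.2 h.2
    · cases v
      exacts [id, h3, h3, fun h => h.elim h3 fun h => h2 (by rw [h.1])]

theorem H_imp (j : Fin k) (f f' : A k S) : Hm j (f.imp f') = wimp (Hm j f) (Hm j f') := by
  ext ⟨x, y⟩
  constructor
  · intro h x' y' h1 h2 h3
    have := H_weak j _ _ _ _ _ h1 h2 h
    simp only [Hm, A.imp, F.imp, Set.mem_setOf_eq] at this h3 ⊢
    split_ifs at this with h4
    · rcases h4 with h4 | h4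
      · rw [h4] at h3; exact h3.elim
      · rwa [← h4]
    · exact this
  · intro h
    simp only [Hm, A.imp, F.imp, Set.mem_setOf_eq]
    split_ifs with h4
    · trivial
    by_contra h5
    obtain ⟨x', y', h1, h2, h6, h7⟩ := G.ext (not_or.1 h4).1 (not_or.1 h4).2 h5
    have := h x' y' h1 h2
    simp only [Hm, Set.mem_setOf_eq, h1.1, ← h2.2.1] at this
    exact h7 (this h6)

theorem ty_q (j : Fin k) (σ : At k) (p : Fin k → ℕ) :
    ty j p (fun i => if σ.1 i then p i + 1 else p i) = σ := by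
  obtain ⟨σ, h⟩ := σ
  obtain ⟨l, hl⟩ := not_forall.1 h
  refine Subtype.ext (funext fun i => ?_)
  have : ∃ l, σ l = false := ⟨l, by simpa using hl⟩
  cases hi : σ i <;> simp [ty, this, hi]

theorem ty_p (j : Fin k) (σ : At k) (q : Fin k → ℕ) :
    ty j (fun i => if σ.1 i then q i + 1 else q i) q = σ := by
  obtain ⟨σ, h⟩ := σ
  obtain ⟨l, hl⟩ := not_forall.1 h
  refine Subtype.ext (funext fun i => ?_)
  have : ∃ l, σ l = false := ⟨l, by simpa using hl⟩
  cases hi : σ i <;> simp [ty, this, hi]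

theorem H_inj (j : Fin k) : Injective (Hm j : A k S → _) := by
  intro f f' h
  refine Subtype.ext (funext fun σ => ?_)
  by_contra hne
  let x : Pt k := mk 1 0 1 0 (by simp)
  let y : Pt k := mk 0 (fun i => if σ.1 i then x.p i + 1 else x.p i) 0 1 (by simp)
  have h0 : ∀ u, G x y u → u = .o := by
    rintro (_ | _ | _ | i) h
    · exact h.elim
    · rfl
    · have := h j
      cases hj : σ.1 j <;> simp [x, y, mk, hj] at this
    · simp [G, x, y, mk] at h
  have key : ∀ f f' : A k S, Hm j f = Hm j f' → f.1 σ ≠ f'.1 σ → f.1 σ ≠ .z → f'.1 σ = .o := by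
    intro f f' h h1 h2
    by_contra h3
    obtain ⟨x', y', a, b, c, d⟩ := G.ext h2 h1 fun e => h3 (h0 _ e)
    have := Set.ext_iff.1 h (x', y')
    have e : ty j x.p y.q = σ := ty_q j σ x.p
    simp only [Hm, Set.mem_setOf_eq, a.1, ← b.2.1, e] at this
    exact d (this.1 c)
  by_cases h1 : f.1 σ = .z
  · have := key f' f h.symm (Ne.symm hne) (by rw [← h1]; exact Ne.symm hne)
    rw [h1] at this
    cases this
  · have h2 := key f f' h hne h1
    exact hne ((key f' f h.symm (Ne.symm hne) (by rw [h2]; nofun)).trans h2.symm)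

theorem H_left (j : Fin k) (f : A k S) (h : ¬ ∀ τ, f.1 τ = .z) : (∃ i, ∀ τ, f.1 τ = .b i) ∨
    ∀ x : Pt k, ∃ q, ∀ w : Pt k, w.q = q → (x, w) ∈ Hm j f := by
  by_cases h1 : ∃ σ, f.1 σ = .o
  · obtain ⟨σ, h1⟩ := h1
    refine .inr fun x => ⟨fun i => if σ.1 i then x.p i + 1 else x.p i, fun w hw => ?_⟩
    simp only [Hm, Set.mem_setOf_eq]
    rw [hw, ty_q j σ, h1]
    trivial
  obtain ⟨g, -, h2⟩ := f.2
  have h3 : ∀ σ, f.1 σ = g := fun σ => (h2 σ).resolve_right fun e => h1 ⟨σ, e⟩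
  rcases g with _ | _ | _ | i
  · exact (h h3).elim
  · exact .inr fun x => ⟨0, fun w _ => by simp [Hm, h3, G]⟩
  · refine .inr fun x => ⟨fun i => (x.iV i).nonempty.some, fun w hw => ?_⟩
    simp only [Hm, Set.mem_setOf_eq, h3, G, hw]
    exact fun i => (x.iV i).nonempty.some_mem
  · exact .inl ⟨i, h3⟩

theorem H_right (j : Fin k) (f : A k S) (h : ¬ ∀ τ, f.1 τ = .z) : (∀ τ, f.1 τ = .a) ∨
    ∀ x : Pt k, ∃ p, ∀ w : Pt k, w.p = p → (w, x) ∈ Hm j f := by
  by_cases h1 : ∃ σ, f.1 σ = .o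
  · obtain ⟨σ, h1⟩ := h1
    refine .inr fun x => ⟨fun i => if σ.1 i then x.q i + 1 else x.q i, fun w hw => ?_⟩
    simp only [Hm, Set.mem_setOf_eq]
    rw [hw, ty_p j σ, h1]
    trivial
  obtain ⟨g, -, h2⟩ := f.2
  have h3 : ∀ σ, f.1 σ = g := fun σ => (h2 σ).resolve_right fun e => h1 ⟨σ, e⟩
  rcases g with _ | _ | _ | i
  · exact (h h3).elim
  · exact .inr fun x => ⟨0, fun w _ => by simp [Hm, h3, G]⟩
  · exact .inl h3
  · refine .inr fun x => ⟨fun i => (x.iU i).nonempty.some, fun w hw => ?_⟩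
    simp only [Hm, Set.mem_setOf_eq, h3, G, hw]
    exact (x.iU i).nonempty.some_mem

theorem H_cmp (j : Fin k) (f f' : A k S) (hj : ¬ ∀ τ, f.1 τ = .b j) :
    Hm j (f.cmp f') = rcomp (Hm j f) (Hm j f') := by
  ext ⟨x, m⟩
  constructor
  · intro h
    simp only [Hm, A.cmp, Set.mem_setOf_eq] at h
    split_ifs at h with h1
    · exact h.elim
    simp only [not_or, not_exists, not_and] at h1
    rcases H_left j f h1.1 with ⟨i, a⟩ | a <;> rcases H_right j f' h1.2.1 with b | b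
    · have h2 : x.p i ≠ m.q i := fun e => h1.2.2 i a b (by simp [ty, e])
      refine ⟨mk 0 0 (fun l => if l = i then x.p i else m.q l + 1) m.q fun l => ?_, ?_, ?_⟩
      · split_ifs with h
        · rwa [h]
        · simp
      · simp [Hm, a, G, mk]
      · simp [Hm, b, G, mk]
    · obtain ⟨p, b⟩ := b m
      exact ⟨mk p 0 x.p (x.p + 1) (by simp), by simp [Hm, a, G, mk], b _ rfl⟩
    · obtain ⟨q, a⟩ := a x
      exact ⟨mk 0 q (m.q + 1) m.q (by simp), a _ rfl, by simp [Hm, b, G, mk]⟩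
    · obtain ⟨q, a⟩ := a x
      obtain ⟨p, b⟩ := b m
      exact ⟨mk p q 0 1 (by simp), a _ rfl, b _ rfl⟩
  · rintro ⟨w, h1, h2⟩
    simp only [Hm, A.cmp, Set.mem_setOf_eq] at h1 h2 ⊢
    rw [if_neg]
    · trivial
    rintro (h | h | ⟨i, a, b, c⟩)
    · rw [h] at h1; exact h1
    · rw [h] at h2; exact h2
    · rw [a] at h1
      rw [b] at h2
      have h3 : i ≠ j := by rintro rfl; exact hj a
      have h4 : x.p i ≠ m.q i := fun e => w.dj i _ h1 (e ▸ h2 i)
      simp [ty, h3, h4] at c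

section
variable {X : Type} [Preorder X] {h : A k S → Set (X × X)} (hi : Injective h)
  (hw : ∀ f, Weak (h f)) (h1 : ∀ f f', h (f.imp f') = wimp (h f) (h f'))
  (h2 : ∀ f f', h (f.cmp f') = rcomp (h f) (h f')) (j : Fin k)
include hi hw h1 h2 j

theorem basic : (∀ p, p ∈ h (cst .o nofun)) ∧ (∀ p, p ∉ h (cst .z nofun)) ∧ Nonempty X ∧
    (∀ y, ∃ m, (y, m) ∈ h (cst .a nofun)) ∧
    ∀ i hi x y, ∃ x' y', x' ≤ x ∧ y ≤ y' ∧ (x', y') ∈ h (cst (.b i) hi) := by
  let σ : At k := ⟨fun _ => false, fun h => by simpa using h j⟩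
  have o : ∀ p, p ∈ h (cst .o nofun) := fun p => by
    have : (cst .o nofun : A k S) = (cst .o nofun).imp (cst .o nofun) :=
      Subtype.ext (funext fun _ => by simp [cst, A.imp, F.imp])
    rw [this, h1]
    exact fun _ _ _ _ => id
  have ne : h (cst .z nofun) ≠ h (cst .o nofun) := fun e => by
    cases congrFun (congrArg Subtype.val (hi e)) σ
  have z : ∀ p, p ∉ h (cst .z nofun) := fun p hp => ne (Set.ext fun w => ⟨fun _ => o _, fun _ => by
    have e1 : (cst .z nofun : A k S) = (cst .o nofun).cmp (cst .z nofun) :=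
      Subtype.ext (funext fun _ => by simp [cst, A.cmp])
    have e2 : (cst .z nofun : A k S) = (cst .z nofun).cmp (cst .o nofun) :=
      Subtype.ext (funext fun _ => by simp [cst, A.cmp])
    rw [e2, h2]
    refine ⟨p.2, ?_, o _⟩
    rw [e1, h2]
    exact ⟨p.1, o _, hp⟩⟩)
  refine ⟨o, z, ?_, fun y => ?_, fun i hi x y => ?_⟩
  · by_contra hn
    exact ne (Set.ext fun w => (hn ⟨w.1⟩).elim)
  · have : (cst .o nofun : A k S) = (cst .a nofun).cmp (cst .o nofun) :=
      Subtype.ext (funext fun _ => by have : Nonempty (At k) := ⟨σ⟩; simp [cst, A.cmp])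
    have a := o (y, y)
    rw [this, h2] at a
    exact a.imp fun _ => And.left
  · have : (cst .z nofun : A k S) = (cst (.b i) hi).imp (cst .z nofun) :=
      Subtype.ext (funext fun _ => by simp [cst, A.imp, F.imp])
    by_contra hn
    refine z (x, y) ?_
    rw [this, h1]
    exact fun x' y' a b c => (hn ⟨x', y', a, b, c⟩).elim

theorem not_rep (hS : ∀ i, i ∈ S) : False := by
  obtain ⟨o, z, ⟨x0⟩, tot, den⟩ := basic hi hw h1 h2 j
  have hb : ∀ i l, F.b i = .b l → l ∈ S := fun _ l _ => hS l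
  obtain ⟨x, y, hxy⟩ : ∃ x y, ∀ i ∈ (Finset.univ : Finset (Fin k)),
      (x, y) ∈ h (cst (.b i) (hb i)) := by
    induction (Finset.univ : Finset (Fin k)) using Finset.induction_on with
    | empty => exact ⟨x0, x0, by simp⟩
    | insert i s _ ih =>
      obtain ⟨x, y, ih⟩ := ih
      obtain ⟨x', y', a, b, c⟩ := den i (hb i) x y
      exact ⟨x', y', Finset.forall_mem_insert .. |>.2 ⟨c, fun l hl => hw _ _ _ _ _ a b (ih l hl)⟩⟩
  obtain ⟨m, hm⟩ := tot y
  have key : ∀ s : Finset (Fin k), ∀ β : A k S, (∀ σ, (∀ i ∈ s, σ.1 i = true) → β.1 σ = .o) →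
      (x, m) ∈ h β := by
    intro s
    induction s using Finset.induction_on with
    | empty =>
      intro β hβ
      rw [show β = cst .o nofun from Subtype.ext (funext fun σ => hβ σ (by simp))]
      exact o _
    | insert i s _ ih =>
      intro β hβ
      have := ih (((cst (.b i) (hb i)).cmp (cst .a nofun)).imp β) fun σ hσ => by
        cases hi : σ.1 i
        · exact if_pos (.inl (if_pos (.inr (.inr ⟨i, fun _ => rfl, fun _ => rfl, hi⟩))))
        · have := hβ σ (Finset.forall_mem_insert .. |>.2 ⟨hi, hσ⟩)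
          simp [A.imp, F.imp, this]
      rw [h1, h2] at this
      exact this x m le_rfl le_rfl ⟨y, hxy i (Finset.mem_univ _), hm⟩
  exact z _ (key Finset.univ _ fun σ hσ => (σ.2 fun i => hσ i (Finset.mem_univ _)).elim)

theorem no_max (hS : j ∈ S) (y : X) : ¬ IsMax y := by
  intro hy
  obtain ⟨o, z, -, tot, den⟩ := basic hi hw h1 h2 j
  obtain ⟨m, hm⟩ := tot y
  have hb : ∀ l, F.b j = .b l → l ∈ S := by rintro _ ⟨⟩; exact hS
  let σ : At k := ⟨fun _ => false, fun h => by simpa using h j⟩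
  have : (cst .o nofun : A k S) = (cst .o nofun).cmp
      (((cst (.b j) hb).cmp (cst .a nofun)).imp (cst .z nofun)) := by
    refine Subtype.ext (funext fun τ => (if_neg ?_).symm)
    rintro (e | e | ⟨i, e, -⟩)
    · cases e σ
    · cases (e σ).symm.trans
        (if_pos (.inl (if_pos (.inr (.inr ⟨j, fun _ => rfl, fun _ => rfl, rfl⟩)))))
    · cases e σ
  have a := o (m, m)
  rw [this, h2, h1, h2] at a
  obtain ⟨x, -, a⟩ := a
  obtain ⟨x', y', b, c, d⟩ := den j hb x y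
  exact z _ (a x' m b le_rfl ⟨y, hw _ _ _ _ _ le_rfl (hy c) d, hm⟩)

end

end Pool.Agent.H.MP_5885b3_lc
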